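import Pool.Agent.H8.VM.H5_AllRanks
import Pool.Agent.H8.VM.H6_Ranks

open scoped BigOperators
open Filter

namespace Pool.Agent.Results.MP_3ce63d_co.SparsePavingAllRanks

/-- A matroid is paving if every circuit has at least as many elements as the rank. -/
def Paving {α : Type*} (M : Matroid α) : Prop := ∀ C : Set α, M.IsCircuit C → M.eRank ≤ C.encard

/-- A matroid is sparse paving if it and its dual are paving. -/
def SparsePaving {α : Type*} (M : Matroid α) : Prop := Paving M ∧ Paving M✶

/-- sparse paving matroids with ground set `{1,…,n}`, of any rank -/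
def AllSP {n : ℕ} (M : Matroid (Fin n)) : Prop := M.E = Set.univ ∧ SparsePaving M

/-- sparse paving matroids of rank `r` with ground set `{1,…,n}` -/
def SP {n : ℕ} (r : ℕ) (M : Matroid (Fin n)) : Prop :=
  M.E = Set.univ ∧ SparsePaving M ∧ M.eRank = (r : ℕ∞)

/-- `M` has a minor isomorphic to the Vámos matroid (the formulation of the frozen statement). -/
def HasV8 {n : ℕ} (M : Matroid (Fin n)) : Prop :=
  ∃ C D : Set (Fin n), ∃ φ : Fin 8 → Fin n, Function.Injective φ ∧
    Set.range φ = ((M.contract C).delete D).E ∧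
    ∀ I : Finset (Fin 8),
      (((M.contract C).delete D).Indep (φ '' (I : Set (Fin 8))) ↔
        (I.card ≤ 3 ∨
          (I.card = 4 ∧ I ≠ ({0, 1, 2, 3} : Finset (Fin 8)) ∧
            I ≠ ({0, 1, 4, 5} : Finset (Fin 8)) ∧
            I ≠ ({0, 1, 6, 7} : Finset (Fin 8)) ∧
            I ≠ ({2, 3, 4, 5} : Finset (Fin 8)) ∧
            I ≠ ({2, 3, 6, 7} : Finset (Fin 8)))))

/-- the isomorphism class of `M` among the matroids with ground set `{1,…,n}` -/
def isoClass {n : ℕ} (M : Matroid (Fin n)) : Set (Matroid (Fin n)) :=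
  {N : Matroid (Fin n) | N.E = Set.univ ∧
    ∃ e : Equiv.Perm (Fin n), ∀ I : Set (Fin n), M.Indep I ↔ N.Indep (e '' I)}

/-- **Vámos minors in sparse paving matroids.**
Asymptotically almost every sparse paving matroid on `n` elements has a minor isomorphic to the
Vámos matroid, both for labelled matroids and for isomorphism classes. The same holds for the
sparse paving matroids of rank `r(n)`, for every sequence of ranks with
`min(r(n), n - r(n)) ≥ 10000·log n` for all large `n`. -/
theorem result :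
    (Tendsto (fun n : ℕ =>
      (Nat.card {M : Matroid (Fin n) // AllSP M ∧ HasV8 M} : ℝ) /
        (Nat.card {M : Matroid (Fin n) // AllSP M} : ℝ)) atTop (nhds 1) ∧
    Tendsto (fun n : ℕ =>
      (Nat.card {S : Set (Matroid (Fin n)) // ∃ M : Matroid (Fin n),
          AllSP M ∧ HasV8 M ∧ S = isoClass M} : ℝ) /
        (Nat.card {S : Set (Matroid (Fin n)) // ∃ M : Matroid (Fin n),
          AllSP M ∧ S = isoClass M} : ℝ)) atTop (nhds 1)) ∧
    ∀ r : ℕ → ℕ, (∀ᶠ n : ℕ in atTop, 10000 * Real.log n ≤ min (r n) (n - r n : ℕ)) →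
    Tendsto (fun n : ℕ =>
      (Nat.card {M : Matroid (Fin n) // SP (r n) M ∧ HasV8 M} : ℝ) /
        (Nat.card {M : Matroid (Fin n) // SP (r n) M} : ℝ)) atTop (nhds 1) ∧
    Tendsto (fun n : ℕ =>
      (Nat.card {S : Set (Matroid (Fin n)) // ∃ M : Matroid (Fin n),
          SP (r n) M ∧ HasV8 M ∧ S = isoClass M} : ℝ) /
        (Nat.card {S : Set (Matroid (Fin n)) // ∃ M : Matroid (Fin n),
          SP (r n) M ∧ S = isoClass M} : ℝ)) atTop (nhds 1) :=
  ⟨H8.VM.all_ranks, fun r hr => H8.VM.given_ranks r hr⟩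

end Pool.Agent.Results.MP_3ce63d_co.SparsePavingAllRanks
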